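import Mathlib

set_option autoImplicit false
open scoped Classical

namespace Pool.Agent.Lib.MP_cf1753_co

section General

variable {α : Type} [Fintype α] {V : Type} [AddCommMonoid V]

/-- value of a word: consecutive letters `x, y` contribute the additive map `tr x y` -/
def val (tr : α → α → V →+ V) (v0 : V) : List α → V
  | [] => v0
  | [_] => v0
  | x :: y :: l => tr x y (val tr v0 (y :: l))

/-- `f` lists the elements of `S` in an order compatible with `le` -/
def Good (le : α → α → Prop) (S : Finset α) (n : ℕ) (f : Fin n → α) : Prop :=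
  Function.Injective f ∧ (∀ x, x ∈ S ↔ ∃ i, f i = x) ∧ ∀ i j, le (f i) (f j) → i ≤ j

/-- sum of the values of all words starting with `x` and continuing with an order of `S` -/
noncomputable def tot (le : α → α → Prop) (tr : α → α → V →+ V) (v0 : V) (S : Finset α) (n : ℕ)
    (x : α) : V :=
  ∑ f : Fin n → α, if Good le S n f then val tr v0 (x :: List.ofFn f) else 0

/-- the same without a first letter -/
noncomputable def tot0 (le : α → α → Prop) (tr : α → α → V →+ V) (v0 : V) (S : Finset α) (n : ℕ) :
    V :=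
  ∑ f : Fin n → α, if Good le S n f then val tr v0 (List.ofFn f) else 0

theorem good_cons (le : α → α → Prop) (S : Finset α) (n : ℕ) (y : α) (f : Fin n → α) :
    Good le S (n + 1) (Fin.cons y f : Fin (n + 1) → α) ↔
      (y ∈ S ∧ ∀ z ∈ S, le z y → z = y) ∧ Good le (S.erase y) n f := by
  unfold Good
  constructor
  · rintro ⟨hinj, hS, hle⟩
    have hyS : y ∈ S := (hS y).2 ⟨0, rfl⟩
    have hne : ∀ i, f i ≠ y := by
      intro i h
      have : (Fin.cons y f : Fin (n + 1) → α) i.succ = (Fin.cons y f : Fin (n + 1) → α) 0 := by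
        simpa using h
      exact absurd (hinj this) (Fin.succ_ne_zero i)
    refine ⟨⟨hyS, ?_⟩, ?_, ?_, ?_⟩
    · intro z hz hzy
      obtain ⟨i, hi⟩ := (hS z).1 hz
      rcases Fin.eq_zero_or_eq_succ i with rfl | ⟨j, rfl⟩
      · simpa using hi.symm
      · exfalso
        have h1 : le ((Fin.cons y f : Fin (n + 1) → α) j.succ)
            ((Fin.cons y f : Fin (n + 1) → α) 0) := by
          rw [hi]; simpa using hzy
        have h2 := hle _ _ h1
        exact absurd h2 (by simp)
    · intro i j h
      have : (Fin.cons y f : Fin (n + 1) → α) i.succ = (Fin.cons y f : Fin (n + 1) → α) j.succ := by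
        simpa using h
      exact Fin.succ_injective _ (hinj this)
    · intro x
      rw [Finset.mem_erase, hS x]
      constructor
      · rintro ⟨h1, i, hi⟩
        rcases Fin.eq_zero_or_eq_succ i with rfl | ⟨j, rfl⟩
        · exact absurd (by simpa using hi.symm) h1
        · exact ⟨j, by simpa using hi⟩
      · rintro ⟨i, rfl⟩
        exact ⟨hne i, i.succ, by simp⟩
    · intro i j h
      have := hle i.succ j.succ (by simpa using h)
      exact Fin.succ_le_succ_iff.1 this
  · rintro ⟨⟨hyS, hmin⟩, hinj, hS, hle⟩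
    have hne : ∀ i, f i ≠ y := by
      intro i h
      have := (hS (f i)).2 ⟨i, rfl⟩
      rw [h] at this
      exact absurd this (by simp)
    refine ⟨?_, ?_, ?_⟩
    · intro i j h
      rcases Fin.eq_zero_or_eq_succ i with rfl | ⟨i, rfl⟩ <;>
        rcases Fin.eq_zero_or_eq_succ j with rfl | ⟨j, rfl⟩
      · rfl
      · exact absurd (by simpa using h.symm) (hne j)
      · exact absurd (by simpa using h) (hne i)
      · exact congrArg Fin.succ (hinj (by simpa using h))
    · intro x
      constructor
      · intro hx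
        by_cases hxy : x = y
        · exact ⟨0, by simp [hxy]⟩
        · obtain ⟨i, hi⟩ := (hS x).1 (Finset.mem_erase.2 ⟨hxy, hx⟩)
          exact ⟨i.succ, by simpa using hi⟩
      · rintro ⟨i, rfl⟩
        rcases Fin.eq_zero_or_eq_succ i with rfl | ⟨i, rfl⟩
        · simpa using hyS
        · have := (hS (f i)).2 ⟨i, rfl⟩
          simpa using Finset.mem_of_mem_erase this
    · intro i j h
      rcases Fin.eq_zero_or_eq_succ i with rfl | ⟨i, rfl⟩ <;>
        rcases Fin.eq_zero_or_eq_succ j with rfl | ⟨j, rfl⟩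
      · exact le_rfl
      · exact Fin.zero_le _
      · exfalso
        have h1 : f i ∈ S := Finset.mem_of_mem_erase ((hS (f i)).2 ⟨i, rfl⟩)
        exact hne i (hmin _ h1 (by simpa using h))
      · exact Fin.succ_le_succ_iff.2 (hle i j (by simpa using h))

theorem tot_succ (le : α → α → Prop) (tr : α → α → V →+ V) (v0 : V) (S : Finset α) (n : ℕ)
    (x : α) : tot le tr v0 S (n + 1) x =
      ∑ y : α, if (y ∈ S ∧ ∀ z ∈ S, le z y → z = y) then
        tr x y (tot le tr v0 (S.erase y) n y) else 0 := by
  unfold tot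
  rw [← (Fin.consEquiv (fun _ : Fin (n + 1) => α)).sum_comp, Fintype.sum_prod_type]
  refine Finset.sum_congr rfl ?_
  intro y _
  by_cases hy : (y ∈ S ∧ ∀ z ∈ S, le z y → z = y)
  · rw [if_pos hy, map_sum]
    refine Finset.sum_congr rfl ?_
    intro f _
    have h1 : Good le S (n + 1) ((Fin.consEquiv (fun _ : Fin (n + 1) => α)) (y, f)) ↔
        Good le (S.erase y) n f := by
      have := good_cons le S n y f
      exact this.trans ⟨fun h => h.2, fun h => ⟨hy, h⟩⟩
    by_cases h2 : Good le (S.erase y) n f
    · rw [if_pos h2, if_pos (h1.2 h2)]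
      have : List.ofFn ((Fin.consEquiv (fun _ : Fin (n + 1) => α)) (y, f)) = y :: List.ofFn f := by
        rw [List.ofFn_succ]
        rfl
      rw [this]
      rfl
    · rw [if_neg h2, if_neg (fun h => h2 (h1.1 h)), map_zero]
  · rw [if_neg hy]
    refine Finset.sum_eq_zero ?_
    intro f _
    rw [if_neg]
    intro h
    exact hy ((good_cons le S n y f).1 h).1

theorem tot0_succ (le : α → α → Prop) (tr : α → α → V →+ V) (v0 : V) (S : Finset α) (n : ℕ) :
    tot0 le tr v0 S (n + 1) =
      ∑ y : α, if (y ∈ S ∧ ∀ z ∈ S, le z y → z = y) then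
        (tot le tr v0 (S.erase y) n y) else 0 := by
  unfold tot tot0
  rw [← (Fin.consEquiv (fun _ : Fin (n + 1) => α)).sum_comp, Fintype.sum_prod_type]
  refine Finset.sum_congr rfl ?_
  intro y _
  by_cases hy : (y ∈ S ∧ ∀ z ∈ S, le z y → z = y)
  · rw [if_pos hy]
    refine Finset.sum_congr rfl ?_
    intro f _
    have h1 : Good le S (n + 1) ((Fin.consEquiv (fun _ : Fin (n + 1) => α)) (y, f)) ↔
        Good le (S.erase y) n f := by
      have := good_cons le S n y f
      exact this.trans ⟨fun h => h.2, fun h => ⟨hy, h⟩⟩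
    by_cases h2 : Good le (S.erase y) n f
    · rw [if_pos h2, if_pos (h1.2 h2)]
      have : List.ofFn ((Fin.consEquiv (fun _ : Fin (n + 1) => α)) (y, f)) = y :: List.ofFn f := by
        rw [List.ofFn_succ]
        rfl
      rw [this]
    · rw [if_neg h2, if_neg (fun h => h2 (h1.1 h))]
  · rw [if_neg hy]
    refine Finset.sum_eq_zero ?_
    intro f _
    rw [if_neg]
    intro h
    exact hy ((good_cons le S n y f).1 h).1

theorem tot_zero (le : α → α → Prop) (tr : α → α → V →+ V) (v0 : V) (x : α) :
    tot le tr v0 ∅ 0 x = v0 := by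
  unfold tot
  rw [Fintype.sum_eq_single (Fin.elim0 : Fin 0 → α)]
  · rw [if_pos]
    · simp [val]
    · refine ⟨fun i => i.elim0, ?_, fun i => i.elim0⟩
      intro x
      constructor
      · intro h; exact absurd h (by simp)
      · rintro ⟨i, _⟩; exact i.elim0
  · intro f hf
    exact absurd (Subsingleton.elim _ _) hf

end General

/-- the sum over linear extensions given by permutations is `tot0` -/
theorem sum_perm {p : ℕ} {V : Type} [AddCommMonoid V] (le : Fin p → Fin p → Prop)
    (tr : Fin p → Fin p → V →+ V) (v0 : V) :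
    (∑ σ ∈ Finset.univ.filter (fun σ : Equiv.Perm (Fin p) => ∀ i j, le (σ i) (σ j) → i ≤ j),
      val tr v0 (List.ofFn (fun i => σ i))) = tot0 le tr v0 Finset.univ p := by
  unfold tot0
  rw [← Finset.sum_filter]
  refine Finset.sum_bij (fun σ _ => (fun i => σ i)) ?_ ?_ ?_ ?_
  · intro σ hσ
    rw [Finset.mem_filter] at hσ ⊢
    refine ⟨Finset.mem_univ _, σ.injective, ?_, hσ.2⟩
    intro x
    exact ⟨fun _ => σ.surjective x, fun _ => Finset.mem_univ _⟩
  · intro σ _ τ _ h
    exact Equiv.ext (fun i => congrFun h i)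
  · intro f hf
    rw [Finset.mem_filter] at hf
    obtain ⟨_, hinj, hS, hle⟩ := hf
    have hb : Function.Bijective f := ⟨hinj, fun x => (hS x).1 (Finset.mem_univ x)⟩
    refine ⟨Equiv.ofBijective f hb, ?_, ?_⟩
    · rw [Finset.mem_filter]
      exact ⟨Finset.mem_univ _, hle⟩
    · rfl
  · intro σ _
    rfl

end Pool.Agent.Lib.MP_cf1753_co
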