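import Mathlib
import Pool.Agent.Lib.MP_cf1753_co.Words

set_option autoImplicit false
open scoped Classical

namespace Pool.Agent.Lib.MP_cf1753_co

/-- six natural numbers: the moments 0,1,2 of the descent number, even and odd part -/
abbrev V6 : Type := (ℕ × ℕ × ℕ) × (ℕ × ℕ × ℕ)

/-- moment update for one more descent -/
def up3 (v : ℕ × ℕ × ℕ) : ℕ × ℕ × ℕ := (v.1, v.2.1 + v.1, v.2.2 + 2 * v.2.1 + v.1)

/-- an ascent multiplies by 50 -/
def ascM : V6 →+ V6 where
  toFun v := ((50 * v.1.1, 50 * v.1.2.1, 50 * v.1.2.2), (50 * v.2.1, 50 * v.2.2.1, 50 * v.2.2.2))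
  map_zero' := by simp
  map_add' v w := by
    simp only [Prod.fst_add, Prod.snd_add, Prod.mk_add_mk, mul_add]

/-- a descent -/
def desM : V6 →+ V6 where
  toFun v := (up3 v.2, up3 v.1)
  map_zero' := by simp [up3]
  map_add' v w := by
    simp only [up3, Prod.fst_add, Prod.snd_add, Prod.mk_add_mk]
    refine Prod.ext (Prod.ext ?_ (Prod.ext ?_ ?_)) (Prod.ext ?_ (Prod.ext ?_ ?_)) <;>
      simp only <;> ring

/-- transition map -/
def tr {p : ℕ} (x y : Fin p) : V6 →+ V6 := if y < x then desM else ascM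

/-- initial vector -/
def v0 : V6 := ((1, 0, 0), (0, 0, 0))

/-- number of descents as in the statement -/
noncomputable def des {n p : ℕ} (f : Fin n → Fin p) : ℕ :=
  (Finset.univ.filter (fun i : Fin n => ∃ j : Fin n, j.val = i.val + 1 ∧ f j < f i)).card

theorem des_succ {n p : ℕ} (f : Fin (n + 2) → Fin p) :
    des f = (if f 1 < f 0 then 1 else 0) + des (fun i : Fin (n + 1) => f i.succ) := by
  unfold des
  rw [Fin.card_filter_univ_succ]
  have h0 : (∃ j : Fin (n + 2), j.val = (0 : Fin (n + 2)).val + 1 ∧ f j < f 0) ↔ f 1 < f 0 := by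
    constructor
    · rintro ⟨j, hj, h⟩
      have : j = 1 := by
        apply Fin.ext
        simpa using hj
      rwa [this] at h
    · intro h
      exact ⟨1, by simp, h⟩
  have h1 : ∀ i : Fin (n + 1), (∃ j : Fin (n + 2), j.val = (i.succ).val + 1 ∧ f j < f i.succ) ↔
      (∃ j : Fin (n + 1), j.val = i.val + 1 ∧ f j.succ < f i.succ) := by
    intro i
    constructor
    · rintro ⟨j, hj, h⟩
      rcases Fin.eq_zero_or_eq_succ j with rfl | ⟨k, rfl⟩
      · simp at hj
      · exact ⟨k, by simpa using hj, h⟩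
    · rintro ⟨j, hj, h⟩
      exact ⟨j.succ, by simpa using hj, h⟩
  have h2 : (Finset.univ.filter (fun x : Fin (n + 1) => ∃ j : Fin (n + 2), j.val = x.succ.val + 1 ∧
      f j < f x.succ)).card = (Finset.univ.filter (fun i : Fin (n + 1) =>
      ∃ j : Fin (n + 1), j.val = i.val + 1 ∧ f j.succ < f i.succ)).card := by
    congr 1
    ext i
    simp only [Finset.mem_filter, Finset.mem_univ, true_and]
    exact h1 i
  beta_reduce
  by_cases h : f 1 < f 0
  · rw [if_pos (h0.2 h), if_pos h, ← h2]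
    exact add_comm _ _
  · rw [if_neg (fun h' => h (h0.1 h')), if_neg h, ← h2]
    exact (zero_add _).symm

theorem des_one {p : ℕ} (f : Fin 1 → Fin p) : des f = 0 := by
  unfold des
  rw [Finset.card_eq_zero, Finset.filter_eq_empty_iff]
  rintro i _ ⟨j, hj, _⟩
  omega

/-- real value of a vector: even part minus odd part -/
def i0 (v : V6) : ℝ := (v.1.1 : ℝ) - v.2.1
def i1 (v : V6) : ℝ := (v.1.2.1 : ℝ) - v.2.2.1
def i2 (v : V6) : ℝ := (v.1.2.2 : ℝ) - v.2.2.2

theorem i_add (v w : V6) : i0 (v + w) = i0 v + i0 w ∧ i1 (v + w) = i1 v + i1 w ∧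
    i2 (v + w) = i2 v + i2 w := by
  refine ⟨?_, ?_, ?_⟩ <;> simp only [i0, i1, i2, Prod.fst_add, Prod.snd_add] <;> push_cast <;> ring

theorem val_moments {n p : ℕ} (f : Fin (n + 1) → Fin p) :
    i0 (val tr v0 (List.ofFn f)) = 50 ^ n * (-1 / 50 : ℝ) ^ des f ∧
    i1 (val tr v0 (List.ofFn f)) = 50 ^ n * (des f * (-1 / 50 : ℝ) ^ des f) ∧
    i2 (val tr v0 (List.ofFn f)) = 50 ^ n * ((des f) ^ 2 * (-1 / 50 : ℝ) ^ des f) := by
  induction n with
  | zero =>
    rw [des_one]
    have : List.ofFn f = [f 0] := by simp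
    rw [this]
    simp [val, v0, i0, i1, i2]
  | succ n ih =>
    have h1 : List.ofFn f = f 0 :: f 1 :: List.ofFn (fun i : Fin n => f i.succ.succ) := by
      rw [List.ofFn_succ, List.ofFn_succ]
      rfl
    have h2 : List.ofFn (fun i : Fin (n + 1) => f i.succ) =
        f 1 :: List.ofFn (fun i : Fin n => f i.succ.succ) := by
      rw [List.ofFn_succ]
      rfl
    obtain ⟨e0, e1, e2⟩ := ih (fun i => f i.succ)
    rw [h2] at e0 e1 e2
    rw [h1, val, des_succ]
    set w := val tr v0 (f 1 :: List.ofFn (fun i : Fin n => f i.succ.succ)) with hw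
    set d := des (fun i : Fin (n + 1) => f i.succ) with hd
    unfold tr
    by_cases h : f 1 < f 0
    · rw [if_pos h, if_pos h]
      have a0 : i0 (desM w) = - i0 w := by
        simp only [i0, desM, up3, AddMonoidHom.coe_mk, ZeroHom.coe_mk]; ring
      have a1 : i1 (desM w) = - (i1 w + i0 w) := by
        simp only [i0, i1, desM, up3, AddMonoidHom.coe_mk, ZeroHom.coe_mk]; push_cast; ring
      have a2 : i2 (desM w) = - (i2 w + 2 * i1 w + i0 w) := by
        simp only [i0, i1, i2, desM, up3, AddMonoidHom.coe_mk, ZeroHom.coe_mk]; push_cast; ring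
      rw [a0, a1, a2, e0, e1, e2]
      refine ⟨?_, ?_, ?_⟩ <;> push_cast <;> rw [pow_add, pow_succ] <;> ring
    · rw [if_neg h, if_neg h]
      have a0 : i0 (ascM w) = 50 * i0 w := by
        simp only [i0, ascM, AddMonoidHom.coe_mk, ZeroHom.coe_mk]; push_cast; ring
      have a1 : i1 (ascM w) = 50 * i1 w := by
        simp only [i1, ascM, AddMonoidHom.coe_mk, ZeroHom.coe_mk]; push_cast; ring
      have a2 : i2 (ascM w) = 50 * i2 w := by
        simp only [i2, ascM, AddMonoidHom.coe_mk, ZeroHom.coe_mk]; push_cast; ring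
      rw [a0, a1, a2, e0, e1, e2]
      refine ⟨?_, ?_, ?_⟩ <;> push_cast <;> rw [zero_add, pow_succ] <;> ring

theorem i_sum {ι : Type} (s : Finset ι) (g : ι → V6) :
    i0 (∑ x ∈ s, g x) = ∑ x ∈ s, i0 (g x) ∧ i1 (∑ x ∈ s, g x) = ∑ x ∈ s, i1 (g x) ∧
    i2 (∑ x ∈ s, g x) = ∑ x ∈ s, i2 (g x) := by
  induction s using Finset.induction_on with
  | empty => simp [i0, i1, i2]
  | insert a s ha ih =>
    rw [Finset.sum_insert ha, Finset.sum_insert ha, Finset.sum_insert ha, Finset.sum_insert ha]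
    obtain ⟨h0, h1, h2⟩ := i_add (g a) (∑ x ∈ s, g x)
    rw [h0, h1, h2, ih.1, ih.2.1, ih.2.2]
    exact ⟨rfl, rfl, rfl⟩

end Pool.Agent.Lib.MP_cf1753_co
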