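import Mathlib
import Pool.Agent.Lib.MP_cf1753_co.Moments

set_option autoImplicit false
open scoped Classical

namespace Pool.Agent.Lib.MP_cf1753_co

/-- chain of a label -/
def ch (x : Fin 52) : ℕ := x.val % 2

/-- position of a label in its chain -/
def ix (x : Fin 52) : ℕ := 2 * ((x.val % 26) / 2) + x.val / 26

/-- the partial order -/
def le (x y : Fin 52) : Prop :=
  (ch x = ch y ∧ ix x ≤ ix y) ∨ (ch x = 0 ∧ ch y = 1 ∧ ix x + 1 ≤ ix y) ∨
    (ch x = 1 ∧ ch y = 0 ∧ ix x + 7 ≤ ix y)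

theorem ext52 {x y : Fin 52} (h1 : ch x = ch y) (h2 : ix x = ix y) : x = y := by
  apply Fin.ext
  have hx := x.2
  have hy := y.2
  unfold ch ix at *
  omega

theorem ch_lt (x : Fin 52) : ch x = 0 ∨ ch x = 1 := by
  unfold ch
  omega

theorem ix_lt (x : Fin 52) : ix x < 26 := by
  have hx := x.2
  unfold ix
  omega

theorem le_refl' (x : Fin 52) : le x x := Or.inl ⟨rfl, le_rfl⟩

theorem le_antisymm' (x y : Fin 52) (h1 : le x y) (h2 : le y x) : x = y := by
  unfold le at *
  apply ext52 <;> omega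

theorem le_trans' (x y z : Fin 52) (h1 : le x y) (h2 : le y z) : le x z := by
  have := ch_lt x
  have := ch_lt y
  have := ch_lt z
  unfold le at *
  omega

/-- the label at position `i` of the first chain -/
def ea (i : ℕ) : Fin 52 := ⟨(26 * (i % 2) + 2 * (i / 2)) % 52, Nat.mod_lt _ (by norm_num)⟩

/-- the label at position `i` of the second chain -/
def eb (i : ℕ) : Fin 52 := ⟨(26 * (i % 2) + 2 * (i / 2) + 1) % 52, Nat.mod_lt _ (by norm_num)⟩

theorem ch_ea (i : ℕ) : ch (ea i) = 0 := by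
  unfold ch ea
  simp only
  omega

theorem ch_eb (i : ℕ) : ch (eb i) = 1 := by
  unfold ch eb
  simp only
  omega

theorem ix_ea {i : ℕ} (h : i < 26) : ix (ea i) = i := by
  unfold ix ea
  simp only
  have h1 : (26 * (i % 2) + 2 * (i / 2)) % 52 = 26 * (i % 2) + 2 * (i / 2) :=
    Nat.mod_eq_of_lt (by omega)
  rw [h1]
  rcases Nat.mod_two_eq_zero_or_one i with h2 | h2 <;> rw [h2] <;> omega

theorem ix_eb {i : ℕ} (h : i < 26) : ix (eb i) = i := by
  unfold ix eb
  simp only
  have h1 : (26 * (i % 2) + 2 * (i / 2) + 1) % 52 = 26 * (i % 2) + 2 * (i / 2) + 1 :=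
    Nat.mod_eq_of_lt (by omega)
  rw [h1]
  rcases Nat.mod_two_eq_zero_or_one i with h2 | h2 <;> rw [h2] <;> omega

theorem ix_ea26 : ix (ea 26) = 1 := by decide
theorem ix_eb26 : ix (eb 26) = 1 := by decide

/-- remaining elements -/
noncomputable def S (i j : ℕ) : Finset (Fin 52) :=
  Finset.univ.filter (fun x => (ch x = 0 → i ≤ ix x) ∧ (ch x = 1 → j ≤ ix x))

theorem mem_S {i j : ℕ} {x : Fin 52} :
    x ∈ S i j ↔ (ch x = 0 → i ≤ ix x) ∧ (ch x = 1 → j ≤ ix x) := by
  unfold S
  rw [Finset.mem_filter]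
  exact ⟨fun h => h.2, fun h => ⟨Finset.mem_univ _, h⟩⟩

/-- minimality condition -/
abbrev Pm (i j : ℕ) (y : Fin 52) : Prop := y ∈ S i j ∧ ∀ z ∈ S i j, le z y → z = y

theorem Pm_ea {i j : ℕ} (hi : i ≤ 26) (hj : j ≤ 26) : Pm i j (ea i) ↔ (i < 26 ∧ i < j + 7) := by
  have c1 := ch_ea i
  constructor
  · rintro ⟨h1, h2⟩
    have hi' : i < 26 := by
      by_contra h
      have : i = 26 := by omega
      subst this
      rw [mem_S, ix_ea26] at h1
      have := h1.1 c1
      omega
    refine ⟨hi', ?_⟩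
    by_contra h
    have hj' : j < 26 := by omega
    have h3 := h2 (eb j) (by
      rw [mem_S, ch_eb, ix_eb hj']
      exact ⟨fun h => by omega, fun _ => le_rfl⟩) (by
      unfold le
      rw [ch_eb, c1, ix_eb hj', ix_ea hi']
      omega)
    have h4 := congrArg ch h3
    rw [ch_eb, c1] at h4
    omega
  · rintro ⟨h1, h2⟩
    refine ⟨?_, ?_⟩
    · rw [mem_S, c1, ix_ea h1]
      exact ⟨fun _ => le_rfl, fun h => by omega⟩
    · intro z hz hle
      rw [mem_S] at hz
      unfold le at hle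
      rw [c1, ix_ea h1] at hle
      have hz' := ch_lt z
      apply ext52
      · rw [c1]; omega
      · rw [ix_ea h1]; omega

theorem Pm_eb {i j : ℕ} (hi : i ≤ 26) (hj : j ≤ 26) : Pm i j (eb j) ↔ (j < 26 ∧ j ≤ i) := by
  have c1 := ch_eb j
  constructor
  · rintro ⟨h1, h2⟩
    have hj' : j < 26 := by
      by_contra h
      have : j = 26 := by omega
      subst this
      rw [mem_S, ix_eb26] at h1
      have := h1.2 c1
      omega
    refine ⟨hj', ?_⟩
    by_contra h
    have hi' : i < 26 := by omega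
    have h3 := h2 (ea i) (by
      rw [mem_S, ch_ea, ix_ea hi']
      exact ⟨fun _ => le_rfl, fun h => by omega⟩) (by
      unfold le
      rw [ch_ea, c1, ix_eb hj', ix_ea hi']
      omega)
    have h4 := congrArg ch h3
    rw [ch_ea, c1] at h4
    omega
  · rintro ⟨h1, h2⟩
    refine ⟨?_, ?_⟩
    · rw [mem_S, c1, ix_eb h1]
      exact ⟨fun h => by omega, fun _ => le_rfl⟩
    · intro z hz hle
      rw [mem_S] at hz
      unfold le at hle
      rw [c1, ix_eb h1] at hle
      have hz' := ch_lt z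
      apply ext52
      · rw [c1]; omega
      · rw [ix_eb h1]; omega

theorem not_Pm {i j : ℕ} {y : Fin 52} (h1 : y ≠ ea i) (h2 : y ≠ eb j) : ¬ Pm i j y := by
  rintro ⟨h3, h4⟩
  rw [mem_S] at h3
  have hy := ix_lt y
  rcases ch_lt y with hc | hc
  · have h5 := h3.1 hc
    have hi : i < 26 := by omega
    have h6 := h4 (ea i) (by
      rw [mem_S, ch_ea, ix_ea hi]
      exact ⟨fun _ => le_rfl, fun h => by omega⟩) (by
      unfold le
      rw [ch_ea, ix_ea hi, hc]
      omega)
    exact h1 h6.symm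
  · have h5 := h3.2 hc
    have hi : j < 26 := by omega
    have h6 := h4 (eb j) (by
      rw [mem_S, ch_eb, ix_eb hi]
      exact ⟨fun h => by omega, fun _ => le_rfl⟩) (by
      unfold le
      rw [ch_eb, ix_eb hi, hc]
      omega)
    exact h2 h6.symm

theorem erase_ea {i j : ℕ} (hi : i < 26) : (S i j).erase (ea i) = S (i + 1) j := by
  ext x
  rw [Finset.mem_erase, mem_S, mem_S]
  constructor
  · rintro ⟨h1, h2, h3⟩
    refine ⟨fun h => ?_, h3⟩
    have h4 := h2 h
    rcases h4.eq_or_lt with h5 | h5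
    · exfalso
      apply h1
      apply ext52
      · rw [ch_ea, h]
      · rw [ix_ea hi, h5]
    · exact h5
  · rintro ⟨h2, h3⟩
    refine ⟨?_, fun h => (h2 h).trans' (Nat.le_succ i), h3⟩
    rintro rfl
    have := h2 (ch_ea i)
    rw [ix_ea hi] at this
    omega

theorem erase_eb {i j : ℕ} (hj : j < 26) : (S i j).erase (eb j) = S i (j + 1) := by
  ext x
  rw [Finset.mem_erase, mem_S, mem_S]
  constructor
  · rintro ⟨h1, h2, h3⟩
    refine ⟨h2, fun h => ?_⟩
    have h4 := h3 h
    rcases h4.eq_or_lt with h5 | h5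
    · exfalso
      apply h1
      apply ext52
      · rw [ch_eb, h]
      · rw [ix_eb hj, h5]
    · exact h5
  · rintro ⟨h2, h3⟩
    refine ⟨?_, h2, fun h => (h3 h).trans' (Nat.le_succ j)⟩
    rintro rfl
    have := h3 (ch_eb j)
    rw [ix_eb hj] at this
    omega

theorem ea_ne_eb (i j : ℕ) : ea i ≠ eb j := by
  intro h
  have := congrArg ch h
  rw [ch_ea, ch_eb] at this
  omega

theorem sum_Pm {M : Type} [AddCommMonoid M] (g : Fin 52 → M) {i j : ℕ} (hi : i ≤ 26)
    (hj : j ≤ 26) :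
    (∑ y : Fin 52, if Pm i j y then g y else 0) =
      (if i < 26 ∧ i < j + 7 then g (ea i) else 0) + (if j < 26 ∧ j ≤ i then g (eb j) else 0) := by
  rw [Finset.sum_eq_add (ea i) (eb j) (ea_ne_eb i j)]
  · congr 1
    · by_cases h : i < 26 ∧ i < j + 7
      · rw [if_pos h, if_pos ((Pm_ea hi hj).2 h)]
      · rw [if_neg h, if_neg (fun h' => h ((Pm_ea hi hj).1 h'))]
    · by_cases h : j < 26 ∧ j ≤ i
      · rw [if_pos h, if_pos ((Pm_eb hi hj).2 h)]
      · rw [if_neg h, if_neg (fun h' => h ((Pm_eb hi hj).1 h'))]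
  · rintro c _ ⟨h1, h2⟩
    rw [if_neg (not_Pm h1 h2)]
  · intro h
    exact absurd (Finset.mem_univ _) h
  · intro h
    exact absurd (Finset.mem_univ _) h

/-- abbreviation for the totals -/
noncomputable def T (i j n : ℕ) (x : Fin 52) : V6 := tot le tr v0 (S i j) n x

theorem T_succ {i j : ℕ} (hi : i ≤ 26) (hj : j ≤ 26) (n : ℕ) (x : Fin 52) :
    T i j (n + 1) x =
      (if i < 26 ∧ i < j + 7 then tr x (ea i) (T (i + 1) j n (ea i)) else 0) +
      (if j < 26 ∧ j ≤ i then tr x (eb j) (T i (j + 1) n (eb j)) else 0) := by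
  have h0 : T i j (n + 1) x =
      ∑ y : Fin 52, if Pm i j y then tr x y (tot le tr v0 ((S i j).erase y) n y) else 0 := by
    unfold T
    rw [tot_succ]
    refine Finset.sum_congr rfl ?_
    intro y _
    by_cases h : Pm i j y
    · rw [if_pos h, if_pos h]
      congr!
    · rw [if_neg h, if_neg h]
  rw [h0, sum_Pm (fun y => tr x y (tot le tr v0 ((S i j).erase y) n y)) hi hj]
  congr 1
  · by_cases h : i < 26 ∧ i < j + 7
    · rw [if_pos h, if_pos h, erase_ea h.1]
      rfl
    · rw [if_neg h, if_neg h]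
  · by_cases h : j < 26 ∧ j ≤ i
    · rw [if_pos h, if_pos h, erase_eb h.1]
      rfl
    · rw [if_neg h, if_neg h]

theorem S_top : S 26 26 = ∅ := by
  ext x
  rw [mem_S]
  have := ix_lt x
  have := ch_lt x
  constructor
  · rintro ⟨h1, h2⟩
    omega
  · intro h
    exact absurd h (by simp)

theorem T_zero (x : Fin 52) : T 26 26 0 x = v0 := by
  unfold T
  rw [S_top, tot_zero]

theorem S_bot : S 0 0 = Finset.univ := by
  ext x
  rw [mem_S]
  simp

theorem tot0_eq' (m : ℕ) : tot0 le tr v0 Finset.univ (m + 1) = T 1 0 m (ea 0) + T 0 1 m (eb 0) := by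
  have h0 : tot0 le tr v0 Finset.univ (m + 1) =
      ∑ y : Fin 52, if Pm 0 0 y then (tot le tr v0 ((S 0 0).erase y) m y) else 0 := by
    rw [← S_bot, tot0_succ]
    refine Finset.sum_congr rfl ?_
    intro y _
    by_cases h : Pm 0 0 y
    · rw [if_pos h, if_pos h]
      congr!
    · rw [if_neg h, if_neg h]
  rw [h0, sum_Pm (fun y => (tot le tr v0 ((S 0 0).erase y) m y)) (i := 0) (j := 0) (by norm_num)
    (by norm_num), if_pos (by norm_num), if_pos (by norm_num), erase_ea (by norm_num),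
    erase_eb (by norm_num)]
  unfold T
  rw [Nat.zero_add]

theorem tot0_eq : tot0 le tr v0 Finset.univ 52 = T 1 0 51 (ea 0) + T 0 1 51 (eb 0) :=
  tot0_eq' 51

end Pool.Agent.Lib.MP_cf1753_co
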