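import Mathlib

set_option autoImplicit false

namespace Pool.Agent.Lib.MP_cf1753_co

open Polynomial

/-- the operator `X d/dX` -/
noncomputable def theta (P : ℝ[X]) : ℝ[X] := X * derivative P

theorem theta_mul (P Q : ℝ[X]) : theta (P * Q) = theta P * Q + P * theta Q := by
  unfold theta
  rw [derivative_mul]
  ring

theorem theta_X_sub_C (r : ℝ) : theta (X - C r) = X := by
  unfold theta
  simp

theorem theta_add (P Q : ℝ[X]) : theta (P + Q) = theta P + theta Q := by
  unfold theta
  rw [derivative_add]
  ring

theorem theta_X : theta X = X := by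
  unfold theta
  simp

/-- If all complex zeros of `P` are real and `P` has no positive zero then
`(θP)(t)^2 ≥ P(t) (θθP)(t)` for negative `t`. -/
theorem laguerre (t : ℝ) (ht : t < 0) : ∀ (n : ℕ) (P : ℝ[X]), P.natDegree = n → P ≠ 0 →
    (∀ z : ℂ, aeval z P = 0 → z.im = 0) → (∀ r : ℝ, 0 < r → P.eval r ≠ 0) →
    P.eval t * (theta (theta P)).eval t ≤ (theta P).eval t ^ 2 := by
  intro n
  induction n with
  | zero =>
    intro P hP _ _ _
    rw [natDegree_eq_zero] at hP
    obtain ⟨c, rfl⟩ := hP
    have h0 : theta (C c) = 0 := by unfold theta; simp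
    have h1 : theta (0 : ℝ[X]) = 0 := by unfold theta; simp
    rw [h0, h1]
    simp
  | succ n ih =>
    intro P hP hP0 hreal hpos
    -- a complex root
    have hdeg : (P.map (algebraMap ℝ ℂ)).degree ≠ 0 := by
      rw [degree_map]
      intro h
      rw [degree_eq_natDegree hP0, hP] at h
      norm_cast at h
    obtain ⟨z, hz⟩ := IsAlgClosed.exists_root (P.map (algebraMap ℝ ℂ)) hdeg
    have hz' : aeval z P = 0 := by
      rw [aeval_def, ← eval_map]
      exact hz
    have him := hreal z hz'
    obtain ⟨r, hr⟩ : ∃ r : ℝ, z = (r : ℂ) := ⟨z.re, by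
      apply Complex.ext
      · simp
      · simp [him]⟩
    have hroot : P.eval r = 0 := by
      rw [hr] at hz'
      have h2 : aeval ((algebraMap ℝ ℂ) r) P = (algebraMap ℝ ℂ) (P.eval r) := by
        rw [aeval_algebraMap_apply, aeval_def]
        simp [eval₂_eq_eval_map]
      have h3 : (algebraMap ℝ ℂ) (P.eval r) = 0 := by
        rw [← h2]
        exact hz'
      exact (map_eq_zero (algebraMap ℝ ℂ)).1 h3
    have hr0 : r ≤ 0 := by
      by_contra h
      exact hpos r (not_le.1 h) hroot
    obtain ⟨Q, hQ⟩ := dvd_iff_isRoot.2 hroot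
    have hQ0 : Q ≠ 0 := by
      rintro rfl
      exact hP0 (by rw [hQ, mul_zero])
    have hQdeg : Q.natDegree = n := by
      have h4 : P.natDegree = (X - C r).natDegree + Q.natDegree := by
        rw [hQ]
        exact natDegree_mul (X_sub_C_ne_zero r) hQ0
      rw [natDegree_X_sub_C, hP] at h4
      omega
    have ih' := ih Q hQdeg hQ0
      (fun z hz => hreal z (by rw [hQ, map_mul, hz, mul_zero]))
      (fun s hs h => hpos s hs (by rw [hQ, eval_mul, h, mul_zero]))
    have e1 : theta P = X * Q + (X - C r) * theta Q := by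
      rw [hQ, theta_mul, theta_X_sub_C]
    have e2 : theta (theta P) = X * Q + X * theta Q + (X * theta Q + (X - C r) * theta (theta Q)) := by
      rw [e1, theta_add, theta_mul, theta_mul, theta_X, theta_X_sub_C]
    rw [e2, e1, hQ]
    simp only [eval_add, eval_mul, eval_X, eval_sub, eval_C]
    set a := Q.eval t
    set b := (theta Q).eval t
    set c := (theta (theta Q)).eval t
    have h5 : 0 ≤ t * r * a ^ 2 := by
      have : 0 ≤ t * r := mul_nonneg_of_nonpos_of_nonpos ht.le hr0
      positivity
    have h6 : 0 ≤ (t - r) ^ 2 * (b ^ 2 - a * c) := by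
      apply mul_nonneg (sq_nonneg _)
      linarith
    nlinarith [h5, h6]

end Pool.Agent.Lib.MP_cf1753_co
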