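import Mathlib
import Pool.Agent.Lib.MP_cf1753_co.Chains

set_option autoImplicit false

namespace Pool.Agent.Lib.MP_cf1753_co

/-- label numbers -/
def la (i : ℕ) : ℕ := 26 * (i % 2) + 2 * (i / 2)
def lb (i : ℕ) : ℕ := 26 * (i % 2) + 2 * (i / 2) + 1

/-- concrete addition -/
def add3 (v w : ℕ × ℕ × ℕ) : ℕ × ℕ × ℕ := (v.1 + w.1, v.2.1 + w.2.1, v.2.2 + w.2.2)

def add6 (v w : V6) : V6 := (add3 v.1 w.1, add3 v.2 w.2)

def mul3 (v : ℕ × ℕ × ℕ) : ℕ × ℕ × ℕ := (50 * v.1, 50 * v.2.1, 50 * v.2.2)

def z6 : V6 := ((0, 0, 0), (0, 0, 0))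

/-- concrete transition on labels -/
def trn (x y : ℕ) (v : V6) : V6 := if y < x then (up3 v.2, up3 v.1) else (mul3 v.1, mul3 v.2)

/-- one entry of the table -/
def ent (i j x : ℕ) (X Y : V6) : V6 :=
  add6 (if i < 26 ∧ i < j + 7 then trn x (la i) X else z6)
    (if j < 26 ∧ j ≤ i then trn x (lb j) Y else z6)

def cell (m i : ℕ) (X Y : V6) : V6 × V6 :=
  if m + i ≤ 52 ∧ 26 ≤ m + i then
    (ent i (52 - (m + i)) (la (i - 1)) X Y, ent i (52 - (m + i)) (lb (52 - (m + i) - 1)) X Y)
  else (z6, z6)

def stepRow (m : ℕ) : ℕ → List (V6 × V6) → List (V6 × V6)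
  | _, [] => []
  | i, [e] => [cell m i z6 e.2]
  | i, e :: e' :: l => cell m i e'.1 e.2 :: stepRow m (i + 1) (e' :: l)

def row : ℕ → List (V6 × V6)
  | 0 => List.replicate 26 (z6, z6) ++ [(v0, v0)]
  | n + 1 => stepRow (n + 1) 0 (row n)

def final : V6 :=
  match row 51 with
  | e :: e' :: _ => add6 e'.1 e.2
  | _ => z6

theorem final_eq : final =
    ((45294942220475501314850543087127782801834869396972656250000000000000,
      664120289640501468707651049916250619216732788549804687500000000000000,
      9800246868210313538662066350555385646958325212939453125000000000000000),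
    45315090060651415595145131687316249200821137084960937500000000000000,
      664224019351133943159286206036047626218803703002929687500000000000000,
      9803096437351352381260121159280883323068912059936523437500000000000000) := by
  decide +kernel

theorem add6_eq (v w : V6) : add6 v w = v + w := rfl

theorem z6_eq : z6 = (0 : V6) := rfl

theorem ea_val {i : ℕ} (h : i < 26) : (ea i).val = la i := by
  unfold ea la
  simp only
  exact Nat.mod_eq_of_lt (by omega)

theorem eb_val {i : ℕ} (h : i < 26) : (eb i).val = lb i := by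
  unfold eb lb
  simp only
  exact Nat.mod_eq_of_lt (by omega)

theorem trn_eq {p : ℕ} (x y : Fin p) (v : V6) : trn x.val y.val v = tr x y v := by
  unfold trn tr
  by_cases h : y < x
  · rw [if_pos h, if_pos (Fin.lt_def.1 h)]
    rfl
  · rw [if_neg h, if_neg (fun h' => h (Fin.lt_def.2 h'))]
    rfl

/-- the value the table should contain -/
noncomputable def F (n i : ℕ) : V6 × V6 :=
  if n + i ≤ 52 ∧ 26 ≤ n + i then
    (T i (52 - (n + i)) n (ea (i - 1)), T i (52 - (n + i)) n (eb (52 - (n + i) - 1)))
  else (z6, z6)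

theorem ent_eq {n i j : ℕ} (hi : i ≤ 26) (hj : j ≤ 26) (hij : n + 1 + i + j = 52) (x : Fin 52) :
    ent i j x.val (F n (i + 1)).1 (F n i).2 = T i j (n + 1) x := by
  rw [T_succ hi hj, ent, add6_eq]
  congr 1
  · by_cases h : i < 26 ∧ i < j + 7
    · rw [if_pos h, if_pos h, ← ea_val h.1, trn_eq]
      congr 1
      unfold F
      rw [if_pos (by omega)]
      have h1 : 52 - (n + (i + 1)) = j := by omega
      have h2 : i + 1 - 1 = i := by omega
      simp only [h1, h2]
    · rw [if_neg h, if_neg h, z6_eq]
  · by_cases h : j < 26 ∧ j ≤ i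
    · rw [if_pos h, if_pos h, ← eb_val h.1, trn_eq]
      congr 1
      unfold F
      rw [if_pos (by omega)]
      have h1 : 52 - (n + i) = j + 1 := by omega
      have h2 : j + 1 - 1 = j := by omega
      simp only [h1, h2]
    · rw [if_neg h, if_neg h, z6_eq]

theorem cell_eq {n i : ℕ} (hi : i ≤ 26) :
    cell (n + 1) i (F n (i + 1)).1 (F n i).2 = F (n + 1) i := by
  unfold cell
  by_cases h : n + 1 + i ≤ 52 ∧ 26 ≤ n + 1 + i
  · rw [if_pos h]
    have hj : 52 - (n + 1 + i) ≤ 26 := by omega
    have hij : n + 1 + i + (52 - (n + 1 + i)) = 52 := by omega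
    rw [← ea_val (i := i - 1) (by omega), ← eb_val (i := 52 - (n + 1 + i) - 1) (by omega),
      ent_eq hi hj hij, ent_eq hi hj hij]
    conv_rhs => unfold F
    rw [if_pos h]
  · rw [if_neg h]
    conv_rhs => unfold F
    rw [if_neg h]

theorem ent_top (j x : ℕ) (X X' Y : V6) : ent 26 j x X Y = ent 26 j x X' Y := by
  unfold ent
  have h : ¬ (26 < 26 ∧ 26 < j + 7) := by omega
  simp only [if_neg h]

theorem cell_top (m : ℕ) (X X' Y : V6) : cell m 26 X Y = cell m 26 X' Y := by
  unfold cell
  by_cases h : m + 26 ≤ 52 ∧ 26 ≤ m + 26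
  · rw [if_pos h, if_pos h, ent_top _ _ X X', ent_top _ _ X X']
  · rw [if_neg h, if_neg h]

theorem stepRow_eq (n : ℕ) : ∀ (k s : ℕ), s + k = 26 →
    stepRow (n + 1) s ((List.range' s (k + 1)).map (F n)) =
      (List.range' s (k + 1)).map (F (n + 1)) := by
  intro k
  induction k with
  | zero =>
    intro s hs
    have : s = 26 := by omega
    subst this
    simp only [List.range'_succ, List.range'_zero, List.map_cons, List.map_nil, stepRow]
    rw [cell_top _ z6 (F n (26 + 1)).1, cell_eq le_rfl]
  | succ k ih =>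
    intro s hs
    have h1 := ih (s + 1) (by omega)
    rw [List.range'_succ, List.map_cons, List.map_cons]
    rw [List.range'_succ, List.map_cons] at h1 ⊢
    rw [stepRow, h1, cell_eq (by omega)]

theorem row_eq : ∀ n, row n = (List.range' 0 27).map (F n) := by
  intro n
  induction n with
  | zero =>
    have h1 : ∀ i, i < 26 → F 0 i = (z6, z6) := by
      intro i hi
      unfold F
      rw [if_neg (by omega)]
    have h2 : F 0 26 = (v0, v0) := by
      unfold F
      rw [if_pos (by omega)]
      have : 52 - (0 + 26) = 26 := by omega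
      rw [this, T_zero, T_zero]
    have h3 : List.range' 0 27 = List.range' 0 26 ++ [26] := by decide
    have h4 : (List.range' 0 26).map (F 0) = List.replicate 26 (z6, z6) := by
      rw [List.eq_replicate_iff]
      constructor
      · simp
      · intro b hb
        rw [List.mem_map] at hb
        obtain ⟨i, hi, rfl⟩ := hb
        apply h1
        rw [List.mem_range'_1] at hi
        omega
    rw [h3, List.map_append, h4, List.map_cons, List.map_nil, h2, row]
  | succ n ih =>
    rw [row, ih]
    exact stepRow_eq n 26 0 rfl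

theorem F_eq {n i j : ℕ} (h : n + i + j = 52) (hj : j ≤ 26) :
    F n i = (T i j n (ea (i - 1)), T i j n (eb (j - 1))) := by
  unfold F
  rw [if_pos (by omega)]
  have h1 : 52 - (n + i) = j := by omega
  rw [h1]

theorem final_of' {u w : V6 × V6} {l : List (V6 × V6)} (h : row 51 = u :: w :: l) :
    final = w.1 + u.2 := by
  unfold final
  rw [h]
  rfl

theorem final_of {l : List (V6 × V6)} (h : row 51 = (F 51 0) :: (F 51 1) :: l) :
    final = T 1 0 51 (ea 0) + T 0 1 51 (eb 0) := by
  have h1 := F_eq (n := 51) (i := 1) (j := 0) (by norm_num) (by norm_num)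
  have h2 := F_eq (n := 51) (i := 0) (j := 1) (by norm_num) (by norm_num)
  have h3 : (F 51 1).1 = T 1 0 51 (ea 0) := by rw [h1]
  have h4 : (F 51 0).2 = T 0 1 51 (eb 0) := by rw [h2]
  rw [final_of' h, h3, h4]

theorem tot0_value : tot0 le tr v0 Finset.univ 52 = final := by
  rw [tot0_eq]
  symm
  apply final_of (l := (List.range' 2 25).map (F 51))
  rw [row_eq]
  have h : List.range' 0 27 = 0 :: 1 :: List.range' 2 25 := by decide
  rw [h, List.map_cons, List.map_cons]

end Pool.Agent.Lib.MP_cf1753_co
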