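import Mathlib
import Pool.Agent.Lib.MP_cf1753_co.Laguerre
import Pool.Agent.Lib.MP_cf1753_co.Table

set_option autoImplicit false
open scoped Classical

namespace Pool.Agent.Lib.MP_cf1753_co

/-- type of a label: parity of the position -/
def ty (x : Fin 52) : ℕ := x.val / 26

theorem ty_eq (x : Fin 52) : ty x = ix x % 2 := by
  have := x.2
  unfold ty ix
  omega

theorem cover_type {x y : Fin 52} (h1 : le x y) (h2 : x ≠ y)
    (h3 : ∀ z, le x z → le z y → z = x ∨ z = y) : ty x ≠ ty y := by
  rw [ty_eq, ty_eq]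
  have hx := ix_lt x
  have hy := ix_lt y
  have cx := ch_lt x
  have cy := ch_lt y
  have hne : ch x = ch y → ix x ≠ ix y := fun e e' => h2 (ext52 e e')
  rcases h1 with ⟨a, b⟩ | ⟨a, a', b⟩ | ⟨a, a', b⟩
  · have h4 : ix x < ix y := lt_of_le_of_ne b (hne a)
    have h5 : ix y = ix x + 1 := by
      by_contra hcon
      have h6 : ix x + 1 < 26 := by omega
      rcases cx with c | c
      · have := h3 (ea (ix x + 1)) (by unfold le; rw [ch_ea, ix_ea h6, c]; omega)
          (by unfold le; rw [ch_ea, ix_ea h6, ← a, c]; omega)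
        rcases this with e | e
        · have := congrArg ix e
          rw [ix_ea h6] at this
          omega
        · have := congrArg ix e
          rw [ix_ea h6] at this
          omega
      · have := h3 (eb (ix x + 1)) (by unfold le; rw [ch_eb, ix_eb h6, c]; omega)
          (by unfold le; rw [ch_eb, ix_eb h6, ← a, c]; omega)
        rcases this with e | e
        · have := congrArg ix e
          rw [ix_eb h6] at this
          omega
        · have := congrArg ix e
          rw [ix_eb h6] at this
          omega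
    omega
  · have h5 : ix y = ix x + 1 := by
      by_contra hcon
      have h6 : ix x + 1 < 26 := by omega
      have := h3 (eb (ix x + 1)) (by unfold le; rw [ch_eb, ix_eb h6, a]; omega)
        (by unfold le; rw [ch_eb, ix_eb h6, a']; omega)
      rcases this with e | e
      · have := congrArg ch e
        rw [ch_eb, a] at this
        omega
      · have := congrArg ix e
        rw [ix_eb h6] at this
        omega
    omega
  · have h5 : ix y = ix x + 7 := by
      by_contra hcon
      have h6 : ix x + 7 < 26 := by omega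
      have := h3 (ea (ix x + 7)) (by unfold le; rw [ch_ea, ix_ea h6, a]; omega)
        (by unfold le; rw [ch_ea, ix_ea h6, a']; omega)
      rcases this with e | e
      · have := congrArg ch e
        rw [ch_ea, a] at this
        omega
      · have := congrArg ix e
        rw [ix_ea h6] at this
        omega
    omega

theorem cover_sign {x y : Fin 52} (h : ty x ≠ ty y) :
    (if x < y then (1 : ℤ) else -1) = (ty y : ℤ) - ty x := by
  have hx := x.2
  have hy := y.2
  have hx' : ty x ≤ 1 := by unfold ty; omega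
  have hy' : ty y ≤ 1 := by unfold ty; omega
  by_cases hlt : x < y
  · rw [if_pos hlt]
    have h1 : x.val < y.val := Fin.lt_def.1 hlt
    have h2 : ty x ≤ ty y := by unfold ty; omega
    omega
  · rw [if_neg hlt]
    have h1 : ¬ x.val < y.val := fun h' => hlt (Fin.lt_def.2 h')
    have h2 : ty y ≤ ty x := by unfold ty; omega
    omega

theorem telescope (g : Fin 52 → ℤ) : ∀ (k : ℕ) (c : Fin (k + 1) → Fin 52),
    ∑ i : Fin k, (g (c i.succ) - g (c i.castSucc)) = g (c (Fin.last k)) - g (c 0) := by
  intro k
  induction k with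
  | zero => intro c; simp
  | succ k ih =>
    intro c
    rw [Fin.sum_univ_castSucc]
    have := ih (fun i => c i.castSucc)
    simp only [Fin.castSucc_zero] at this
    have h2 : ∀ i : Fin k, c (i.succ).castSucc = c (i.castSucc).succ := fun i => rfl
    simp only [h2] at this
    rw [this]
    simp

theorem min_type {x : Fin 52} (h : ∀ y, le y x → y = x) : ty x = 0 := by
  rw [ty_eq]
  have hx := ix_lt x
  have h0 : ix x = 0 := by
    by_contra hcon
    rcases ch_lt x with c | c
    · have h6 : ix x - 1 < 26 := by omega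
      have := h (ea (ix x - 1)) (by unfold le; rw [ch_ea, ix_ea h6, c]; omega)
      have := congrArg ix this
      rw [ix_ea h6] at this
      omega
    · have h6 : ix x - 1 < 26 := by omega
      have := h (eb (ix x - 1)) (by unfold le; rw [ch_eb, ix_eb h6, c]; omega)
      have := congrArg ix this
      rw [ix_eb h6] at this
      omega
  rw [h0]

theorem max_type {x : Fin 52} (h : ∀ y, le x y → y = x) : ty x = 1 := by
  rw [ty_eq]
  have hx := ix_lt x
  have h0 : ix x = 25 := by
    by_contra hcon
    rcases ch_lt x with c | c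
    · have h6 : ix x + 1 < 26 := by omega
      have := h (ea (ix x + 1)) (by unfold le; rw [ch_ea, ix_ea h6, c]; omega)
      have := congrArg ix this
      rw [ix_ea h6] at this
      omega
    · have h6 : ix x + 1 < 26 := by omega
      have := h (eb (ix x + 1)) (by unfold le; rw [ch_eb, ix_eb h6, c]; omega)
      have := congrArg ix this
      rw [ix_eb h6] at this
      omega
  rw [h0]

theorem signGraded (k : ℕ) (c : Fin (k + 1) → Fin 52)
    (h1 : ∀ y, le y (c 0) → y = c 0)
    (h2 : ∀ y, le (c (Fin.last k)) y → y = c (Fin.last k))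
    (h3 : ∀ i : Fin k, le (c i.castSucc) (c i.succ) ∧ c i.castSucc ≠ c i.succ ∧
        ∀ z, le (c i.castSucc) z → le z (c i.succ) → z = c i.castSucc ∨ z = c i.succ) :
    ∑ i : Fin k, (if c i.castSucc < c i.succ then (1 : ℤ) else -1) = 1 := by
  have h4 : ∀ i : Fin k, (if c i.castSucc < c i.succ then (1 : ℤ) else -1) =
      (ty (c i.succ) : ℤ) - ty (c i.castSucc) := fun i =>
    cover_sign (cover_type (h3 i).1 (h3 i).2.1 (h3 i).2.2)
  rw [Finset.sum_congr rfl (fun i _ => h4 i), telescope (fun x => (ty x : ℤ)) k c,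
    min_type h1, max_type h2]
  norm_num

open Polynomial

theorem theta_X_pow (k : ℕ) : theta (X ^ k : ℝ[X]) = C (k : ℝ) * X ^ k := by
  unfold theta
  rcases k with _ | k
  · simp
  · rw [derivative_X_pow]
    simp only [Nat.add_sub_cancel]
    rw [pow_succ]
    ring

theorem theta_C_mul (a : ℝ) (P : ℝ[X]) : theta (C a * P) = C a * theta P := by
  unfold theta
  rw [derivative_C_mul]
  ring

theorem theta_sum {ι : Type} (s : Finset ι) (f : ι → ℝ[X]) :
    theta (∑ x ∈ s, f x) = ∑ x ∈ s, theta (f x) := by
  unfold theta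
  rw [derivative_sum, Finset.mul_sum]

/-- the polynomial of the example -/
noncomputable def W : ℝ[X] :=
  ∑ σ ∈ Finset.univ.filter (fun σ : Equiv.Perm (Fin 52) => ∀ i j, le (σ i) (σ j) → i ≤ j),
    (X : ℝ[X]) ^ des (fun i => σ i)

theorem theta_W : theta W =
    ∑ σ ∈ Finset.univ.filter (fun σ : Equiv.Perm (Fin 52) => ∀ i j, le (σ i) (σ j) → i ≤ j),
    C ((des (fun i => σ i) : ℕ) : ℝ) * (X : ℝ[X]) ^ des (fun i => σ i) := by
  unfold W
  rw [theta_sum]
  exact Finset.sum_congr rfl (fun σ _ => theta_X_pow _)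

theorem theta_theta_W : theta (theta W) =
    ∑ σ ∈ Finset.univ.filter (fun σ : Equiv.Perm (Fin 52) => ∀ i j, le (σ i) (σ j) → i ≤ j),
    C ((des (fun i => σ i) : ℕ) : ℝ) * (C ((des (fun i => σ i) : ℕ) : ℝ) *
      (X : ℝ[X]) ^ des (fun i => σ i)) := by
  rw [theta_W, theta_sum]
  refine Finset.sum_congr rfl (fun σ _ => ?_)
  rw [theta_C_mul, theta_X_pow]

theorem moments : i0 final = 50 ^ 51 * W.eval (-1 / 50) ∧
    i1 final = 50 ^ 51 * (theta W).eval (-1 / 50) ∧
    i2 final = 50 ^ 51 * (theta (theta W)).eval (-1 / 50) := by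
  have h1 := sum_perm le tr v0
  rw [tot0_value] at h1
  obtain ⟨a, b, c⟩ := i_sum (Finset.univ.filter
    (fun σ : Equiv.Perm (Fin 52) => ∀ i j, le (σ i) (σ j) → i ≤ j))
    (fun σ => val tr v0 (List.ofFn (fun i => σ i)))
  rw [h1] at a b c
  have hm : ∀ σ : Equiv.Perm (Fin 52), _ := fun σ => val_moments (n := 51) (fun i => σ i)
  refine ⟨?_, ?_, ?_⟩
  · rw [a]
    unfold W
    rw [eval_finsetSum, Finset.mul_sum]
    refine Finset.sum_congr rfl (fun σ _ => ?_)
    rw [(hm σ).1, eval_pow, eval_X]
  · rw [b, theta_W, eval_finsetSum, Finset.mul_sum]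
    refine Finset.sum_congr rfl (fun σ _ => ?_)
    rw [(hm σ).2.1, eval_mul, eval_C, eval_pow, eval_X]
  · rw [c, theta_theta_W, eval_finsetSum, Finset.mul_sum]
    refine Finset.sum_congr rfl (fun σ _ => ?_)
    rw [(hm σ).2.2, eval_mul, eval_mul, eval_C, eval_pow, eval_X]
    ring

theorem W_pos (r : ℝ) (hr : 0 < r) : 0 < W.eval r := by
  unfold W
  rw [eval_finsetSum]
  have hne : (Finset.univ.filter
    (fun σ : Equiv.Perm (Fin 52) => ∀ i j, le (σ i) (σ j) → i ≤ j)).Nonempty := by
    by_contra hcon
    rw [Finset.not_nonempty_iff_eq_empty] at hcon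
    have h1 := moments.1
    unfold W at h1
    rw [hcon] at h1
    simp only [Finset.sum_empty, eval_zero, mul_zero] at h1
    rw [final_eq] at h1
    unfold i0 at h1
    norm_num at h1
  refine Finset.sum_pos (fun σ _ => ?_) hne
  rw [eval_pow, eval_X]
  exact pow_pos hr _

theorem not_real : ¬ ∀ z : ℂ, aeval z W = 0 → z.im = 0 := by
  intro h
  have hW0 : W ≠ 0 := by
    intro h0
    have := W_pos 1 one_pos
    rw [h0, eval_zero] at this
    exact lt_irrefl _ this
  have h1 := laguerre (-1 / 50) (by norm_num) _ W rfl hW0 h (fun r hr => (W_pos r hr).ne')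
  obtain ⟨a, b, c⟩ := moments
  have h2 : i0 final * i2 final ≤ (i1 final) ^ 2 := by
    rw [a, b, c]
    have h3 : (0 : ℝ) ≤ (50 ^ 51) ^ 2 := by positivity
    nlinarith [mul_le_mul_of_nonneg_left h1 h3]
  rw [final_eq] at h2
  unfold i0 i1 i2 at h2
  norm_num at h2

end Pool.Agent.Lib.MP_cf1753_co
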